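import Pool.Agent.Helper96.NSF.Fresh
import Pool.Agent.Helper77.Slope.PORT

/-!
# Packet TBL: the tube bound for stopped lists
-/

open scoped ENNReal
open Finset

namespace Pool.Agent.Helper2.NSF

open Pool.Agent.Helper98.Saw hiding iv SA
open Pool.Agent.Helper92.Eps
open Pool.Agent.Helper96.UB (rho)
open Pool.Agent.Helper96.KP (Good S0 FacX)
open Pool.Agent.Helper84.Slope (Tub WIDE_stmt)
open Pool.Agent.Helper96.NSF
open Pool.Agent.Helper77.Slope (stop_bad bad_ext)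

theorem far_vertex' {c a w : ℕ} {b : List V} (hb : IsBr c b) (haw : 2 * (a + 1) ≤ w) {x : V}
    (hx : x ∈ b) (h : ¬ |rtv x| ≤ (w : ℤ)) : x 0 < -(a : ℤ) ∨ x 1 < -(a : ℤ) := by
  have hhex : Hex x := (hb.saw.mem_close (hex_e 2) hx).1
  have hrow := (hb.row x hx).1
  have hsg : sg x ≤ 1 := by
    rcases hhex with h | h <;> omega
  unfold sg at hsg
  unfold rtv at h
  have haw' : 2 * ((a : ℤ) + 1) ≤ (w : ℤ) := by exact_mod_cast haw
  by_contra hcon
  push Not at hcon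
  apply h
  rw [abs_le]
  constructor <;> omega

/-- The mass of the bridges which leave a wide tube. -/
theorem bad_RR' (hW : WIDE_stmt) {n : ℕ} {A : Alph (Option Blk) n} (hX : FacX n A)
    (c k a w : ℕ) (hc : 1 ≤ c) (hk : 1 ≤ k) (hkc : k * c ≤ a) (haw : 2 * (a + 1) ≤ w) :
    (c : ℝ≥0∞) * A.RR c (fun l => Pool.Agent.Helper92.Eps.iv (¬ Tub (w : ℤ) l) 1) ≤
      ENNReal.ofReal (160 * rho ^ k) * S0 c := by
  have h1 := hX.RR_br c (fun b => Pool.Agent.Helper92.Eps.iv (¬ ∀ x ∈ b, |rtv x| ≤ (w : ℤ)) 1) hc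
  have h2 : A.RR c (fun l => Pool.Agent.Helper92.Eps.iv (¬ Tub (w : ℤ) l) 1) =
      ∑' a : Br c, lw a.1 * Pool.Agent.Helper92.Eps.iv (¬ ∀ x ∈ a.1, |rtv x| ≤ (w : ℤ)) 1 := h1
  rw [h2]
  refine le_trans ?_ (hW c k a hc hk hkc)
  gcongr with b
  by_cases h : ¬ ∀ x ∈ b.1, |rtv x| ≤ (w : ℤ)
  · rw [Pool.Agent.Helper77.Eps.iv_true h, mul_one]
    rw [Pool.Agent.Helper77.Eps.iv_true]
    push Not at h
    obtain ⟨x, hx, hxx⟩ := h
    exact ⟨x, hx, far_vertex' b.2 haw hx (not_le.mpr hxx)⟩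
  · rw [Pool.Agent.Helper77.Eps.iv_false h, mul_zero]
    exact zero_le

theorem TBL (hW : WIDE_stmt) : TBL_stmt := by
  intro n A hG T s w k hT hs hk hw hTn
  have hC : Calc A := Pool.Agent.Helper77.Eps.stmtCalc A
  have hR : Ren A := (Pool.Agent.Helper10.Eps.stmtRen A hC).1
  have hb := stop_bad A hC hR T s (fun l => ¬ Tub (w : ℤ) l) (fun p r hp => bad_ext hG.fac _ p r hp)
  have hc : ∀ c ∈ Ioc T (T + 2 * s), (T : ℝ≥0∞) *
      A.RR c (fun l => Pool.Agent.Helper92.Eps.iv (¬ Tub (w : ℤ) l) 1) ≤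
      ENNReal.ofReal (160 * rho ^ k) * A.S (T + 2 * s) := by
    intro c hc
    rw [Finset.mem_Ioc] at hc
    calc (T : ℝ≥0∞) * A.RR c (fun l => Pool.Agent.Helper92.Eps.iv (¬ Tub (w : ℤ) l) 1)
        ≤ (c : ℝ≥0∞) * A.RR c (fun l => Pool.Agent.Helper92.Eps.iv (¬ Tub (w : ℤ) l) 1) := by
          gcongr
          omega
      _ ≤ ENNReal.ofReal (160 * rho ^ k) * S0 c :=
          bad_RR' hW hG.facX c k (k * (T + 2 * s)) w (by omega) hk
            (Nat.mul_le_mul_left _ hc.2) hw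
      _ ≤ ENNReal.ofReal (160 * rho ^ k) * A.S (T + 2 * s) := by
          rw [← hG.S_eq]
          gcongr
          exact hR.S_mono _ _ hc.2
  calc (T : ℝ≥0∞) * (A.GG T (fun l => Pool.Agent.Helper92.Eps.iv (A.H l ≤ T + s ∧ ¬ Tub w l) 1) *
        A.S s)
      ≤ T * ∑ c ∈ Ioc T (T + 2 * s),
          A.RR c (fun l => Pool.Agent.Helper92.Eps.iv (¬ Tub (w : ℤ) l) 1) := by gcongr
    _ = ∑ c ∈ Ioc T (T + 2 * s), T *
          A.RR c (fun l => Pool.Agent.Helper92.Eps.iv (¬ Tub (w : ℤ) l) 1) := by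
        rw [Finset.mul_sum]
    _ ≤ ∑ c ∈ Ioc T (T + 2 * s), ENNReal.ofReal (160 * rho ^ k) * A.S (T + 2 * s) :=
        Finset.sum_le_sum hc
    _ = _ := by
        rw [Finset.sum_const, Nat.card_Ioc, nsmul_eq_mul, show T + 2 * s - T = 2 * s by omega]
        push_cast
        ring

end Pool.Agent.Helper2.NSF
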